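import Pool.Agent.U798.ML.Alg

/-!
# An algorithm for minimum-length multiples of nonmonic irreducible polynomials

There is a computable (even primitive recursive) function which maps the list of the coefficients of
a nonmonic irreducible integer polynomial `P` of positive degree to the list of the coefficients of a
minimum-length multiple of `P`.  No condition on the zeros of `P` is needed.

Proof.  Let `P` be of degree `d`, with leading coefficient `a`, `|a| ≥ 2`, and let `P` divide
`F = F₁ + z ^ N F₂`, where `deg F₁ ≤ k < N`.  If `P` does not divide `F₂`, then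
`|a| ^ (N - k) ≤ L(F) ^ d`: the number `a ^ (k - N) ∏ F₂(α)`, the product over the zeros `α` of `P`,
is a nonzero rational number, it lies in every valuation ring of the field of complex numbers, because
`F₂(α) = - α ^ (-N) F₁(α)`, so that it is an integer; and its absolute value is at most
`|a| ^ (k - N) L(F) ^ d`.  Hence a minimum-length multiple with nonzero constant term has no long gaps
between its exponents (else one of the two parts `F₁`, `F₂` would be a shorter multiple), its degree
is less than `d L(P) ^ 2`, and a finite search is sufficient.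
-/

set_option autoImplicit false

namespace Pool.Agent.Results.MP_e7878a_nt.MinLengthAlgorithm

open Polynomial

/-- The polynomial `l₀ + l₁ z + l₂ z² + ⋯` with the list of coefficients `l`. -/
noncomputable def ofCoeffs (l : List ℤ) : ℤ[X] :=
  ∑ i ∈ Finset.range l.length, C (l.getD i 0) * X ^ i

/-- The length of an integer polynomial, the sum of the absolute values of its coefficients. -/
noncomputable def length (F : ℤ[X]) : ℤ := ∑ i ∈ F.support, |F.coeff i|

/-- `F` is a minimum-length multiple of `P`: it is a nonzero multiple of `P`, and its length is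
minimal among the nonzero multiples of `P`. -/
def IsMinLengthMultiple (P F : ℤ[X]) : Prop :=
  F ≠ 0 ∧ P ∣ F ∧ ∀ G : ℤ[X], G ≠ 0 → P ∣ G → length F ≤ length G

/-- `P` is nonmonic: its leading coefficient is not `1` or `-1`. -/
def Nonmonic (P : ℤ[X]) : Prop := P.leadingCoeff ≠ 1 ∧ P.leadingCoeff ≠ -1

theorem result : ∃ f : List ℤ → List ℤ, Computable f ∧ Primrec f ∧
    ∀ l : List ℤ, Irreducible (ofCoeffs l) → 1 ≤ (ofCoeffs l).natDegree → Nonmonic (ofCoeffs l) →
      IsMinLengthMultiple (ofCoeffs l) (ofCoeffs (f l)) := by
  refine ⟨Pool.Agent.U798.ML.alg, Pool.Agent.U798.ML.prim_alg.to_comp,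
    Pool.Agent.U798.ML.prim_alg, fun l hirr hdeg hnm => ?_⟩
  have h0 : (ofCoeffs l).leadingCoeff ≠ 0 := leadingCoeff_ne_zero.2 hirr.ne_zero
  have h2 : 2 ≤ |(ofCoeffs l).leadingCoeff| := by
    obtain ⟨h3, h4⟩ := hnm
    rcases le_total 0 (ofCoeffs l).leadingCoeff with h | h
    · rw [abs_of_nonneg h]
      omega
    · rw [abs_of_nonpos h]
      omega
  exact Pool.Agent.U798.ML.alg_isMin (l := l) hirr (by
    change (ofCoeffs l).natDegree ≠ 0
    omega) h2

end Pool.Agent.Results.MP_e7878a_nt.MinLengthAlgorithm
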